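import Pool.Agent.H43.PJ.M11

/-!
# VK VExp: Vinogradov's bound for `∑ (n+β)^{it}`, `N^{4κ-4} ≤ |t| ≤ N^{4κ}`

Parameters: `k = 16 κ`, `s = 8 k^2 = 2048 κ^2`, `X = ⌊N^{3/8}⌋₊` (`X^2 ≤ N^{3/4}`, `2X^2 ≤ N`, `X ≥ N^{3/8}/2`).
Remainder in `sft`: `4π |t| N (X^2/N)^{k+1} ≤ 4π N^{4κ+1-(16κ+1)/4} ≤ 4π N^{3/4}`.
For each `n ∈ (a,b]`, `α_j = tay`: `|α_j| = |t|/(j (n+β)^j)`, (here `j = 1..k`), `N^{4κ-4}/(j (3N)^j) ≤ |α_j| ≤ N^{4κ-j}`.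
`bil_bound`: `‖bil‖^{4s^2} ≤ X^{8s^2-6s} JV(2s) JV(s) ∏_j GG(α_j, s X^j)`, `JV k (2s) X ≤ X^{2s} JV k s X` (`jv_add`), `jv_eight`:
`JV k s X ≤ K X^{2s - k(k+1)/2 + k^2/1000}`, `K = (C k)^{C k^3}`.
For `5κ ≤ j ≤ 6κ` (at least `κ+1` values `j ≤ k`): `gg_bound` with `Δ = N^{-κ}`, `W = s X^j`: `|α_j| ≤ N^{4κ-5κ}`; `Δ W ≥ N^{-κ} (N^{3/8}/2)^{5κ} ≥ 1`;
`Δ W^2 |α_j| ≥ N^{-κ} (N^{3/8}/2)^{2j} N^{4κ-4}/(j (3N)^j) ≥ N^{3κ-4-j/4}/(j 12^j) ≥ N^{1.5κ-4}/(6κ 12^{6κ}) ≥ 1` (`j ≤ 6κ`, `κ ≥ 4`: `1.5κ - 4 ≥ κ/2`; `N ≥ (Cκ)^{C}`):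
`GG ≤ C (sX^j)^2 N^{-κ} (1 + log(s X^j)) ≤ (s X^j)^2 N^{-κ/2}`.  All other `j`: `gg_triv ≤ 9 (sX^j)^2`.  Product `≤ (9 s^2)^k X^{k(k+1)} N^{-κ(κ+1)/2}`.
Altogether `‖bil‖^{4s^2} ≤ K^2 (9s^2)^k X^{8s^2 - 6s + 2s + 4s} X^{-k(k+1)+k(k+1)+k^2/500} N^{-κ^2/2} ≤ K^2 (9s^2)^k X^{8s^2} N^{-κ^2/4}`
(`X^{k^2/500} ≤ N^{(3/8)(256/500)κ^2} ≤ N^{κ^2/5}`).  Taking the `4s^2`-th root: `K^{2/(4s^2)} = (Ck)^{C k^3/(128 k^4)} ≤ C'`, `(9s^2)^{k/(4s^2)} ≤ C'`,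
`N^{-κ^2/(16 s^2)} = N^{-1/(16·2048^2 κ^2)}`.
So `‖bil‖ ≤ C' X^2 N^{-c/κ^2}`, `c = 1/(16·2048^2)`, and `sft` gives `≤ C' N^{1-c/κ^2} + 2 N^{3/4} + 4π N^{3/4}`.
-/

set_option autoImplicit false

namespace Pool.Agent.H97.VK

open Finset
open Pool.Agent.H91.PK (ee)

private theorem vexp_good {C2 : ℝ} (hC2 : 1 ≤ C2)
    (hgg : ∀ (α Δ : ℝ) (W : ℕ), 1 ≤ W → 0 < Δ → Δ ≤ 1 / 2 → |α| ≤ Δ →
      1 ≤ Δ * W → 1 ≤ Δ * (W : ℝ) ^ 2 * |α| →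
      GG α W ≤ C2 * Δ * (W : ℝ) ^ 2 * (1 + Real.log W))
    (κ X i s : ℕ) (p z t α : ℝ) (hκ : 4 ≤ κ) (hp : 42 ≤ p)
    (hX1 : p ^ 3 ≤ 2 * X) (hX2 : (X : ℝ) ≤ p ^ 3) (hs1 : 6 * κ ≤ s) (hs2 : s ≤ 2048 * κ ^ 2)
    (hi1 : 5 * κ ≤ i) (hi2 : i ≤ 6 * κ) (hz1 : p ^ 8 ≤ z) (hz2 : z ≤ 3 * p ^ 8)
    (ht1 : p ^ (32 * κ - 32) ≤ |t|) (ht2 : |t| ≤ p ^ (32 * κ)) (hα : |α| = |t| / (i * z ^ i))
    (hbig : C2 * 2055 * (κ : ℝ) ^ 2 ≤ p ^ 8) :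
    GG α (s * X ^ i) ≤ ((s : ℝ) * (X : ℝ) ^ i) ^ 2 * (1 / p ^ (4 * κ)) := by
  have hp0 : 0 < p := by linarith only [hp]
  have hp1 : 1 ≤ p := by linarith only [hp]
  have hκR : (4 : ℝ) ≤ κ := by exact_mod_cast hκ
  have hXR : (1 : ℝ) ≤ X := by
    have h1 : (42 : ℝ) ^ 3 ≤ p ^ 3 := by gcongr
    norm_num at h1
    linarith only [hX1, h1]
  have hX0 : 1 ≤ X := by exact_mod_cast hXR
  have hsR1 : 6 * (κ : ℝ) ≤ s := by exact_mod_cast hs1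
  have hsR2 : (s : ℝ) ≤ 2048 * (κ : ℝ) ^ 2 := by exact_mod_cast hs2
  have hsR : (1 : ℝ) ≤ s := by linarith only [hκR, hsR1]
  have hs0 : 1 ≤ s := by exact_mod_cast hsR
  have hi0 : 1 ≤ i := by omega
  have hiR : (1 : ℝ) ≤ i := by exact_mod_cast hi0
  have hiR2 : (i : ℝ) ≤ 6 * κ := by exact_mod_cast hi2
  have hz0 : 1 ≤ z := le_trans (one_le_pow₀ hp1) hz1
  have hW1 : 1 ≤ s * X ^ i := Nat.mul_pos hs0 (Nat.pow_pos hX0)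
  have hΔ0 : 0 < 1 / p ^ (8 * κ) := by positivity
  have hpk : p ≤ p ^ (8 * κ) := le_self_pow₀ hp1 (by omega)
  have hΔ2 : 1 / p ^ (8 * κ) ≤ 1 / 2 := by
    refine one_div_le_one_div_of_le (by norm_num) ?_
    linarith only [hp, hpk]
  have c1 : |α| ≤ 1 / p ^ (8 * κ) := by
    rw [hα, div_le_div_iff₀ (by positivity) (by positivity)]
    calc |t| * p ^ (8 * κ) ≤ p ^ (32 * κ) * p ^ (8 * κ) := by gcongr
      _ = (p ^ 8) ^ (5 * κ) := by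
          rw [← pow_add, ← pow_mul]
          congr 1
          ring
      _ ≤ z ^ (5 * κ) := by gcongr
      _ ≤ z ^ i := pow_le_pow_right₀ hz0 hi1
      _ ≤ 1 * (i * z ^ i) := by
          rw [one_mul]
          exact le_mul_of_one_le_left (by positivity) hiR
  have hX5 : p ^ 8 ≤ (X : ℝ) ^ 5 := by
    have h1 : (p ^ 3) ^ 5 ≤ (2 * (X : ℝ)) ^ 5 := by gcongr
    have h2 : (42 : ℝ) ^ 7 ≤ p ^ 7 := by gcongr
    have h3 : (p ^ 3) ^ 5 = p ^ 8 * p ^ 7 := by ring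
    have h4 : (2 * (X : ℝ)) ^ 5 = 32 * (X : ℝ) ^ 5 := by ring
    have h5 : p ^ 8 * 32 ≤ p ^ 8 * p ^ 7 := by
      gcongr
      norm_num at h2
      linarith only [hΔ0, hΔ2, h2]
    linarith only [h1, h5]
  have hXi : p ^ (8 * κ) ≤ (X : ℝ) ^ i := by
    calc p ^ (8 * κ) = (p ^ 8) ^ κ := pow_mul _ _ _
      _ ≤ ((X : ℝ) ^ 5) ^ κ := by gcongr
      _ = (X : ℝ) ^ (5 * κ) := (pow_mul _ _ _).symm
      _ ≤ (X : ℝ) ^ i := pow_le_pow_right₀ hXR hi1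
  have hcast : ((s * X ^ i : ℕ) : ℝ) = (s : ℝ) * (X : ℝ) ^ i := by push_cast; ring
  have c2 : 1 ≤ 1 / p ^ (8 * κ) * ((s * X ^ i : ℕ) : ℝ) := by
    rw [hcast, one_div, ← div_eq_inv_mul, le_div_iff₀ (by positivity), one_mul]
    calc p ^ (8 * κ) ≤ (X : ℝ) ^ i := hXi
      _ ≤ s * (X : ℝ) ^ i := le_mul_of_one_le_left (by positivity) hsR
  have h12 : (12 * p ^ 2) ^ i * p ^ (8 * κ) ≤ p ^ (32 * κ - 32) := by
    have h42 : (42 : ℝ) ^ 4 ≤ p ^ 4 := by gcongr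
    have hp2 : (1 : ℝ) ≤ 12 * p ^ 2 := by
      have : 1 ≤ p ^ 2 := one_le_pow₀ hp1
      linarith only [hΔ0, hΔ2, this]
    calc (12 * p ^ 2) ^ i * p ^ (8 * κ) ≤ (12 * p ^ 2) ^ (6 * κ) * p ^ (8 * κ) := by
          gcongr
      _ = ((12 : ℝ) ^ 6) ^ κ * p ^ (20 * κ) := by
          rw [mul_pow, ← pow_mul, ← pow_mul, mul_assoc, ← pow_add]
          congr 2
          ring
      _ ≤ (p ^ 4) ^ κ * p ^ (20 * κ) := by
          gcongr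
          refine le_trans ?_ h42
          norm_num
      _ = p ^ (24 * κ) := by
          rw [← pow_mul, ← pow_add]
          congr 1
          ring
      _ ≤ p ^ (32 * κ - 32) := pow_le_pow_right₀ hp1 (by omega)
  have hmain : p ^ (8 * κ) * (i * z ^ i) ≤ ((s : ℝ) * (X : ℝ) ^ i) ^ 2 * |t| := by
    have h4 : (0 : ℝ) < 4 ^ i := by positivity
    refine le_of_mul_le_mul_right ?_ h4
    have hX6 : p ^ 6 ≤ 4 * (X : ℝ) ^ 2 := by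
      have h5 : (p ^ 3) ^ 2 ≤ (2 * (X : ℝ)) ^ 2 := by gcongr
      calc p ^ 6 = (p ^ 3) ^ 2 := by ring
        _ ≤ (2 * (X : ℝ)) ^ 2 := h5
        _ = 4 * (X : ℝ) ^ 2 := by ring
    have his : (i : ℝ) ≤ (s : ℝ) ^ 2 := by nlinarith only [hκR, hiR2, hΔ0, hΔ2, hsR1]
    calc p ^ (8 * κ) * (i * z ^ i) * 4 ^ i
        ≤ p ^ (8 * κ) * (i * (3 * p ^ 8) ^ i) * 4 ^ i := by gcongr
      _ = i * ((12 * p ^ 2) ^ i * p ^ (8 * κ)) * (p ^ 6) ^ i := by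
          have e1 : (3 * p ^ 8) ^ i * 4 ^ i = (12 * p ^ 2) ^ i * (p ^ 6) ^ i := by
            rw [← mul_pow, ← mul_pow]
            congr 1
            ring
          calc p ^ (8 * κ) * (i * (3 * p ^ 8) ^ i) * 4 ^ i
              = i * p ^ (8 * κ) * ((3 * p ^ 8) ^ i * 4 ^ i) := by ring
            _ = _ := by rw [e1]; ring
      _ ≤ (s : ℝ) ^ 2 * |t| * (4 * (X : ℝ) ^ 2) ^ i := by
          have := h12.trans ht1
          gcongr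
      _ = ((s : ℝ) * (X : ℝ) ^ i) ^ 2 * |t| * 4 ^ i := by
          rw [mul_pow, mul_pow]
          ring
  have c3 : 1 ≤ 1 / p ^ (8 * κ) * ((s * X ^ i : ℕ) : ℝ) ^ 2 * |α| := by
    rw [hcast, hα]
    have hd : 0 < p ^ (8 * κ) * (i * z ^ i) := by positivity
    calc (1 : ℝ) ≤ (((s : ℝ) * (X : ℝ) ^ i) ^ 2 * |t|) / (p ^ (8 * κ) * (i * z ^ i)) := by
          rw [le_div_iff₀ hd, one_mul]
          exact hmain
      _ = _ := by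
          field_simp
  have hG := hgg α (1 / p ^ (8 * κ)) (s * X ^ i) hW1 hΔ0 hΔ2 c1 c2 c3
  refine hG.trans ?_
  rw [hcast]
  have hX8 : (X : ℝ) ≤ p ^ 8 := hX2.trans (pow_le_pow_right₀ hp1 (by norm_num))
  have hlog : 1 + Real.log ((s : ℝ) * (X : ℝ) ^ i) ≤ 2055 * (κ : ℝ) ^ 2 * p ^ 8 := by
    rw [Real.log_mul (by linarith only [hκR, hsR1, hΔ0, hΔ2]) (by positivity), Real.log_pow]
    have h1 : Real.log s ≤ s := (Real.log_le_sub_one_of_pos (by linarith only [hκR, hsR1, hΔ0, hΔ2])).trans (by linarith only [hΔ0, hΔ2])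
    have h2 : Real.log X ≤ X := (Real.log_le_sub_one_of_pos (by linarith only [hXR, hΔ0, hΔ2])).trans (by linarith only [hΔ0, hΔ2])
    have h3 : (i : ℝ) * Real.log X ≤ 6 * κ * p ^ 8 := by
      have : (i : ℝ) * Real.log X ≤ i * X := by gcongr
      refine this.trans ?_
      gcongr
    have h4 : (1 : ℝ) ≤ p ^ 8 := one_le_pow₀ hp1
    have h5 : 1 + (s : ℝ) ≤ 2049 * (κ : ℝ) ^ 2 := by nlinarith only [hκR, hsR2, hΔ0, hΔ2]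
    have h6 : 2049 * (κ : ℝ) ^ 2 ≤ 2049 * (κ : ℝ) ^ 2 * p ^ 8 :=
      le_mul_of_one_le_right (by positivity) h4
    have h7 : 6 * (κ : ℝ) * p ^ 8 ≤ 6 * (κ : ℝ) ^ 2 * p ^ 8 := by
      gcongr
      nlinarith only [hκR, hΔ0, hΔ2]
    linarith only [h1, h3, h5, h6, h7]
  have hp44 : C2 * (1 + Real.log ((s : ℝ) * (X : ℝ) ^ i)) ≤ p ^ (4 * κ) := by
    calc C2 * (1 + Real.log ((s : ℝ) * (X : ℝ) ^ i)) ≤ C2 * (2055 * (κ : ℝ) ^ 2 * p ^ 8) := by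
          gcongr
      _ = (C2 * 2055 * (κ : ℝ) ^ 2) * p ^ 8 := by ring
      _ ≤ p ^ 8 * p ^ 8 := by gcongr
      _ = p ^ 16 := by ring
      _ ≤ p ^ (4 * κ) := pow_le_pow_right₀ hp1 (by omega)
  have hpe : p ^ (8 * κ) = p ^ (4 * κ) * p ^ (4 * κ) := by
    rw [← pow_add]
    congr 1
    ring
  calc C2 * (1 / p ^ (8 * κ)) * ((s : ℝ) * (X : ℝ) ^ i) ^ 2 *
        (1 + Real.log ((s : ℝ) * (X : ℝ) ^ i))
      = (C2 * (1 + Real.log ((s : ℝ) * (X : ℝ) ^ i))) *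
        (((s : ℝ) * (X : ℝ) ^ i) ^ 2 * (1 / p ^ (8 * κ))) := by ring
    _ ≤ p ^ (4 * κ) * (((s : ℝ) * (X : ℝ) ^ i) ^ 2 * (1 / p ^ (8 * κ))) := by gcongr
    _ = ((s : ℝ) * (X : ℝ) ^ i) ^ 2 * (1 / p ^ (4 * κ)) := by
        rw [hpe]
        have : p ^ (4 * κ) ≠ 0 := by positivity
        field_simp

private theorem vexp_prod (k κ s X : ℕ) (p : ℝ) (hp : 1 ≤ p) (hk : k = 16 * κ) (G : ℕ → ℝ)
    (hG0 : ∀ j, 0 ≤ G j)
    (h1 : ∀ j, j < k → G j ≤ 9 * ((s : ℝ) * (X : ℝ) ^ (j + 1)) ^ 2)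
    (h2 : ∀ j, 5 * κ ≤ j → j < 6 * κ →
      G j ≤ ((s : ℝ) * (X : ℝ) ^ (j + 1)) ^ 2 * (1 / p ^ (4 * κ))) :
    ∏ j ∈ range k, G j ≤
      (9 * (s : ℝ) ^ 2) ^ k * (X : ℝ) ^ (k * (k + 1)) * (1 / p ^ (4 * κ)) ^ κ := by
  have hXp : ∀ k : ℕ, ∏ j ∈ range k, ((X : ℝ) ^ (j + 1)) ^ 2 = (X : ℝ) ^ (k * (k + 1)) := by
    intro k
    induction k with
    | zero => simp
    | succ k ih =>
      rw [prod_range_succ, ih, ← pow_mul, ← pow_add]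
      congr 1
      ring
  calc ∏ j ∈ range k, G j ≤ ∏ j ∈ range k, (9 * (s : ℝ) ^ 2 * (((X : ℝ) ^ (j + 1)) ^ 2) *
        (if j ∈ Ico (5 * κ) (6 * κ) then (1 / p ^ (4 * κ)) else 1)) := by
        refine prod_le_prod (fun j _ => hG0 j) ?_
        intro j hj
        have hj' : j < k := mem_range.1 hj
        by_cases hm : j ∈ Ico (5 * κ) (6 * κ)
        · rw [if_pos hm]
          rw [mem_Ico] at hm
          refine (h2 j hm.1 hm.2).trans ?_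
          have h3 : 0 ≤ ((s : ℝ) * (X : ℝ) ^ (j + 1)) ^ 2 * (1 / p ^ (4 * κ)) := by positivity
          have h4 : 9 * (s : ℝ) ^ 2 * ((X : ℝ) ^ (j + 1)) ^ 2 * (1 / p ^ (4 * κ)) =
              9 * (((s : ℝ) * (X : ℝ) ^ (j + 1)) ^ 2 * (1 / p ^ (4 * κ))) := by ring
          rw [h4]
          linarith only [h3]
        · rw [if_neg hm, mul_one]
          refine (h1 j hj').trans_eq ?_
          ring
    _ = _ := by
        rw [prod_mul_distrib, prod_mul_distrib, prod_const, card_range, hXp, prod_ite_mem]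
        congr 1
        have hsub : range k ∩ Ico (5 * κ) (6 * κ) = Ico (5 * κ) (6 * κ) := by
          refine inter_eq_right.2 ?_
          intro j hj
          rw [mem_Ico] at hj
          rw [mem_range]
          omega
        rw [hsub, prod_const, Nat.card_Ico]
        congr 1
        omega

private theorem vexp_const {C1 : ℝ} (hC1 : 1 ≤ C1) (k s : ℕ) (hk : 2 ≤ k) (hs : s = 8 * k ^ 2) :
    ((C1 * k) ^ (C1 * (k : ℝ) ^ 3)) ^ 2 * (9 * (s : ℝ) ^ 2) ^ k ≤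
      Real.exp (C1 ^ 2 + 2) ^ (4 * s ^ 2) := by
  have hkR : (2 : ℝ) ≤ k := by exact_mod_cast hk
  have hsR : (s : ℝ) = 8 * (k : ℝ) ^ 2 := by rw [hs]; push_cast; ring
  have hb : 0 < C1 * (k : ℝ) := by positivity
  have h1 : ((C1 * k) ^ (C1 * (k : ℝ) ^ 3)) ^ 2 ≤ Real.exp (C1 ^ 2 * (4 * (s : ℝ) ^ 2)) := by
    have h2 : C1 * (k : ℝ) ≤ Real.exp (C1 * k) := by
      have := Real.add_one_le_exp (C1 * (k : ℝ))
      linarith only [this]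
    calc ((C1 * k) ^ (C1 * (k : ℝ) ^ 3)) ^ 2
        ≤ ((Real.exp (C1 * k)) ^ (C1 * (k : ℝ) ^ 3)) ^ 2 := by
          gcongr
      _ = Real.exp (2 * (C1 * (k : ℝ) * (C1 * (k : ℝ) ^ 3))) := by
          rw [← Real.exp_mul, ← Real.exp_nat_mul]
          norm_num
      _ ≤ Real.exp (C1 ^ 2 * (4 * (s : ℝ) ^ 2)) := by
          refine Real.exp_le_exp.2 ?_
          rw [hsR]
          have h3 : 2 * (C1 * (k : ℝ) * (C1 * (k : ℝ) ^ 3)) = 2 * (C1 ^ 2 * (k : ℝ) ^ 4) := by ring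
          have h4 : C1 ^ 2 * (4 * (8 * (k : ℝ) ^ 2) ^ 2) = 256 * (C1 ^ 2 * (k : ℝ) ^ 4) := by ring
          rw [h3, h4]
          have h5 : 0 ≤ C1 ^ 2 * (k : ℝ) ^ 4 := by positivity
          linarith only [h5]
  have h2 : (9 * (s : ℝ) ^ 2) ^ k ≤ Real.exp (2 * (4 * (s : ℝ) ^ 2)) := by
    have h3 : 3 * (s : ℝ) ≤ Real.exp (3 * s) := by
      have := Real.add_one_le_exp (3 * (s : ℝ))
      linarith only [this]
    have hs0 : (0 : ℝ) ≤ s := Nat.cast_nonneg _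
    calc (9 * (s : ℝ) ^ 2) ^ k = ((3 * (s : ℝ)) ^ 2) ^ k := by
          congr 1
          ring
      _ ≤ ((Real.exp (3 * s)) ^ 2) ^ k := by gcongr
      _ = Real.exp (6 * (s : ℝ) * k) := by
          rw [← pow_mul, ← Real.exp_nat_mul]
          congr 1
          push_cast
          ring
      _ ≤ Real.exp (2 * (4 * (s : ℝ) ^ 2)) := by
          refine Real.exp_le_exp.2 ?_
          have h4 : (k : ℝ) ≤ s := by rw [hsR]; nlinarith only [hkR]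
          nlinarith only [hkR, h4, hsR]
  calc ((C1 * k) ^ (C1 * (k : ℝ) ^ 3)) ^ 2 * (9 * (s : ℝ) ^ 2) ^ k
      ≤ Real.exp (C1 ^ 2 * (4 * (s : ℝ) ^ 2)) * Real.exp (2 * (4 * (s : ℝ) ^ 2)) := by
        gcongr
    _ = Real.exp (C1 ^ 2 + 2) ^ (4 * s ^ 2) := by
        rw [← Real.exp_add, ← Real.exp_nat_mul]
        congr 1
        push_cast
        ring

private theorem vexp_bil {C1 : ℝ} (hC1 : 1 ≤ C1)
    (hjv : ∀ k M : ℕ, 2 ≤ k → 1 ≤ M → (JV k (8 * k ^ 2) M : ℝ) ≤ (C1 * k) ^ (C1 * k ^ 3) *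
      (M : ℝ) ^ (16 * (k : ℝ) ^ 2 - (k : ℝ) * (k + 1) / 2 + (k : ℝ) ^ 2 / 1000))
    (κ k s X : ℕ) (p : ℝ) (hκ : 4 ≤ κ) (hk : k = 16 * κ) (hs : s = 8 * k ^ 2)
    (hp : 1 ≤ p) (hX : 1 ≤ X) (hX2 : (X : ℝ) ≤ p ^ 3) (α : Fin k → ℝ)
    (hP : ∏ j : Fin k, GG (α j) (s * X ^ ((j : ℕ) + 1)) ≤
      (9 * (s : ℝ) ^ 2) ^ k * (X : ℝ) ^ (k * (k + 1)) * (1 / p ^ (4 * κ)) ^ κ) :
    ‖bil k X α‖ ≤ Real.exp (C1 ^ 2 + 2) * (X : ℝ) ^ 2 *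
      (p ^ 8) ^ (-((1 / 2 ^ 26) / (κ : ℝ) ^ 2)) := by
  have hp0 : 0 < p := by linarith only [hp]
  have hk2 : 2 ≤ k := by omega
  have hkpos : 1 ≤ k ^ 2 := Nat.one_le_pow _ _ (by omega)
  have hs1 : 1 ≤ s := by omega
  have hκR : (4 : ℝ) ≤ κ := by exact_mod_cast hκ
  have hκ0 : (0 : ℝ) < κ := by linarith only [hκR]
  have hXR : (1 : ℝ) ≤ X := by exact_mod_cast hX
  have hX0 : (0 : ℝ) < X := by linarith only [hXR]
  have hkR : (k : ℝ) = 16 * κ := by rw [hk]; push_cast; ring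
  have hsR : (s : ℝ) = 8 * (k : ℝ) ^ 2 := by rw [hs]; push_cast; ring
  refine le_of_pow_le_pow_left₀ (n := 4 * s ^ 2) (by positivity) (by positivity) ?_
  set K : ℝ := (C1 * k) ^ (C1 * (k : ℝ) ^ 3) with hK
  have hK0 : 0 ≤ K := Real.rpow_nonneg (by positivity) _
  set E : ℝ := 16 * (k : ℝ) ^ 2 - (k : ℝ) * (k + 1) / 2 + (k : ℝ) ^ 2 / 1000 with hE
  have h0 := bil_bound k s X hs1 hX α
  have hJ : (JV k s X : ℝ) ≤ K * (X : ℝ) ^ E := by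
    have := hjv k X hk2 hX
    rw [← hs] at this
    exact this
  have hJ2 : (JV k (2 * s) X : ℝ) ≤ (X : ℝ) ^ (2 * s) * (K * (X : ℝ) ^ E) := by
    have h1 := jv_add k s s X
    rw [← two_mul] at h1
    have h2 : (JV k (2 * s) X : ℝ) ≤ (X : ℝ) ^ (2 * s) * (JV k s X : ℝ) := by exact_mod_cast h1
    refine h2.trans ?_
    gcongr
  have hbr : (X : ℝ) ^ (8 * s ^ 2 - 6 * s) * (X : ℝ) ^ (2 * s) * (X : ℝ) ^ E * (X : ℝ) ^ E *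
      (X : ℝ) ^ (k * (k + 1)) = (X : ℝ) ^ (8 * s ^ 2) * (X : ℝ) ^ ((k : ℝ) ^ 2 / 500) := by
    have h6 : 6 * s ≤ 8 * s ^ 2 := by nlinarith only [hκ, hs, hkpos, hk]
    rw [← Real.rpow_natCast (X : ℝ) (8 * s ^ 2 - 6 * s), ← Real.rpow_natCast (X : ℝ) (2 * s),
      ← Real.rpow_natCast (X : ℝ) (k * (k + 1)), ← Real.rpow_natCast (X : ℝ) (8 * s ^ 2),
      ← Real.rpow_add hX0, ← Real.rpow_add hX0, ← Real.rpow_add hX0, ← Real.rpow_add hX0,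
      ← Real.rpow_add hX0]
    congr 1
    rw [Nat.cast_sub h6, hE]
    push_cast
    rw [hsR]
    ring
  have hXk : (X : ℝ) ^ ((k : ℝ) ^ 2 / 500) ≤ p ^ (2 * κ ^ 2) := by
    calc (X : ℝ) ^ ((k : ℝ) ^ 2 / 500) ≤ (p ^ 3) ^ ((k : ℝ) ^ 2 / 500) :=
          Real.rpow_le_rpow hX0.le hX2 (by positivity)
      _ = p ^ ((3 : ℝ) * ((k : ℝ) ^ 2 / 500)) := by
          rw [← Real.rpow_natCast p 3, ← Real.rpow_mul hp0.le]
          norm_num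
      _ ≤ p ^ ((2 * κ ^ 2 : ℕ) : ℝ) := by
          refine Real.rpow_le_rpow_of_exponent_le hp ?_
          rw [hkR]
          push_cast
          nlinarith only
      _ = p ^ (2 * κ ^ 2) := Real.rpow_natCast _ _
  have hcancel : p ^ (2 * κ ^ 2) * (1 / p ^ (4 * κ)) ^ κ = 1 / p ^ (2 * κ ^ 2) := by
    have e1 : (p ^ (4 * κ)) ^ κ = p ^ (2 * κ ^ 2) * p ^ (2 * κ ^ 2) := by
      rw [← pow_mul, ← pow_add]
      congr 1
      ring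
    have e2 : p ^ (2 * κ ^ 2) ≠ 0 := by positivity
    rw [one_div, inv_pow, e1]
    field_simp
  have hq : ((p ^ 8) ^ (-((1 / 2 ^ 26) / (κ : ℝ) ^ 2))) ^ (4 * s ^ 2) = 1 / p ^ (2 * κ ^ 2) := by
    rw [one_div (p ^ (2 * κ ^ 2)), ← Real.rpow_natCast p 8, ← Real.rpow_mul hp0.le,
      ← Real.rpow_natCast _ (4 * s ^ 2), ← Real.rpow_mul hp0.le,
      ← Real.rpow_natCast p (2 * κ ^ 2), ← Real.rpow_neg hp0.le]
    congr 1
    push_cast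
    rw [hsR, hkR]
    field_simp
    norm_num
  have hfin := vexp_const hC1 k s hk2 hs
  calc ‖bil k X α‖ ^ (4 * s ^ 2)
      ≤ (X : ℝ) ^ (8 * s ^ 2 - 6 * s) * (JV k (2 * s) X : ℝ) * (JV k s X : ℝ) *
        ∏ j : Fin k, GG (α j) (s * X ^ ((j : ℕ) + 1)) := h0
    _ ≤ (X : ℝ) ^ (8 * s ^ 2 - 6 * s) * ((X : ℝ) ^ (2 * s) * (K * (X : ℝ) ^ E)) *
        (K * (X : ℝ) ^ E) *
        ((9 * (s : ℝ) ^ 2) ^ k * (X : ℝ) ^ (k * (k + 1)) * (1 / p ^ (4 * κ)) ^ κ) := by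
        have hP0 : 0 ≤ ∏ j : Fin k, GG (α j) (s * X ^ ((j : ℕ) + 1)) :=
          prod_nonneg (fun j _ => gg_nonneg _ _)
        gcongr
    _ = K ^ 2 * (9 * (s : ℝ) ^ 2) ^ k *
        ((X : ℝ) ^ (8 * s ^ 2 - 6 * s) * (X : ℝ) ^ (2 * s) * (X : ℝ) ^ E * (X : ℝ) ^ E *
          (X : ℝ) ^ (k * (k + 1))) * (1 / p ^ (4 * κ)) ^ κ := by ring
    _ = K ^ 2 * (9 * (s : ℝ) ^ 2) ^ k * (X : ℝ) ^ (8 * s ^ 2) *
        ((X : ℝ) ^ ((k : ℝ) ^ 2 / 500) * (1 / p ^ (4 * κ)) ^ κ) := by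
        rw [hbr]
        ring
    _ ≤ K ^ 2 * (9 * (s : ℝ) ^ 2) ^ k * (X : ℝ) ^ (8 * s ^ 2) *
        (p ^ (2 * κ ^ 2) * (1 / p ^ (4 * κ)) ^ κ) := by
        gcongr
    _ = K ^ 2 * (9 * (s : ℝ) ^ 2) ^ k * (X : ℝ) ^ (8 * s ^ 2) * (1 / p ^ (2 * κ ^ 2)) := by
        rw [hcancel]
    _ ≤ Real.exp (C1 ^ 2 + 2) ^ (4 * s ^ 2) * (X : ℝ) ^ (8 * s ^ 2) *
        (1 / p ^ (2 * κ ^ 2)) := by
        gcongr
    _ = (Real.exp (C1 ^ 2 + 2) * (X : ℝ) ^ 2 *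
        (p ^ 8) ^ (-((1 / 2 ^ 26) / (κ : ℝ) ^ 2))) ^ (4 * s ^ 2) := by
        rw [mul_pow, mul_pow, hq, ← pow_mul]
        congr 3
        ring

private theorem vexp_abs_tay (k : ℕ) (t β : ℝ) (n : ℕ) (hz : 0 < (n : ℝ) + β) (j : Fin k) :
    |tay k t β n j| = |t| / ((((j : ℕ) + 1 : ℕ) : ℝ) * ((n : ℝ) + β) ^ ((j : ℕ) + 1)) := by
  unfold tay
  rw [abs_div, abs_mul, abs_pow, abs_neg, abs_one, one_pow, one_mul]
  congr 1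
  push_cast
  refine abs_of_pos ?_
  positivity

theorem vexp_h (h_jv_eight : jv_eight_P) : ∃ c C : ℝ, 0 < c ∧ 1 ≤ C ∧ ∀ (κ N a b : ℕ) (β t : ℝ), 4 ≤ κ → (C * κ) ^ C ≤ N →
    N ≤ a → b ≤ 2 * N → 0 ≤ β → β ≤ 1 → (N : ℝ) ^ (4 * κ - 4) ≤ |t| → |t| ≤ (N : ℝ) ^ (4 * κ) →
    ‖∑ n ∈ Ioc a b, ee (t * Real.log (n + β))‖ ≤ C * (N : ℝ) ^ (1 - c / (κ : ℝ) ^ 2) := by
  obtain ⟨C1, hC1, hjv⟩ := h_jv_eight
  obtain ⟨C2, hC2, hgg⟩ := gg_bound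
  set D : ℝ := Real.exp (C1 ^ 2 + 2) with hD
  have hD0 : 0 < D := Real.exp_pos _
  refine ⟨1 / 2 ^ 26, D + 15 + 2055 + C2, by norm_num, by linarith only [hC2, hD0], ?_⟩
  intro κ N a b β t hκ hN hNa hb hβ0 hβ1 ht1 ht2
  set C : ℝ := D + 15 + 2055 + C2 with hC
  have hκR : (4 : ℝ) ≤ κ := by exact_mod_cast hκ
  have hκ0 : (0 : ℝ) < κ := by linarith only [hκR]
  have hCge : 2055 ≤ C := by linarith only [hC2, hD0]
  have hCC2 : C2 ≤ C := by linarith only [hD0]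
  -- lower bounds for `N`
  have hb1 : 1 ≤ C * (κ : ℝ) := by nlinarith only [hκR, hC2, hD0]
  have hN8 : (C * (κ : ℝ)) ^ 8 ≤ N := by
    refine le_trans ?_ hN
    rw [← Real.rpow_natCast]
    refine Real.rpow_le_rpow_of_exponent_le hb1 ?_
    push_cast
    linarith only [hC2, hD0]
  have hN0 : (0 : ℝ) < N := by
    have : 0 < (C * (κ : ℝ)) ^ 8 := by positivity
    linarith only [hN8, this]
  set p : ℝ := (N : ℝ) ^ (1 / 8 : ℝ) with hp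
  have hp8 : p ^ 8 = N := by
    rw [hp, ← Real.rpow_natCast, ← Real.rpow_mul hN0.le]
    norm_num
  have hpC : C * (κ : ℝ) ≤ p := by
    refine le_of_pow_le_pow_left₀ (n := 8) (by norm_num) (Real.rpow_nonneg hN0.le _) ?_
    rw [hp8]
    exact hN8
  have hp42 : 42 ≤ p := by nlinarith only [hκR, hpC, hC2, hD0]
  have hp0 : 0 < p := by linarith only [hp42]
  have hp1 : 1 ≤ p := by linarith only [hp42]
  have hbig : C2 * 2055 * (κ : ℝ) ^ 2 ≤ p ^ 8 := by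
    calc C2 * 2055 * (κ : ℝ) ^ 2 ≤ C * C * (κ : ℝ) ^ 2 := by gcongr
      _ = (C * (κ : ℝ)) ^ 2 := by ring
      _ ≤ p ^ 2 := by gcongr
      _ ≤ p ^ 8 := pow_le_pow_right₀ hp1 (by norm_num)
  -- the parameter `X`
  set X : ℕ := ⌊p ^ 3⌋₊ with hX
  have hX2 : (X : ℝ) ≤ p ^ 3 := Nat.floor_le (by positivity)
  have hp3 : 42 ≤ p ^ 3 := hp42.trans (le_self_pow₀ hp1 (by norm_num))
  have hX1 : p ^ 3 ≤ 2 * X := by
    have h1 := Nat.lt_floor_add_one (p ^ 3)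
    rw [← hX] at h1
    linarith only [hp3, h1]
  have hXR : (1 : ℝ) ≤ X := by linarith only [hp3, hX1]
  have hX0 : 1 ≤ X := by exact_mod_cast hXR
  have hX26 : (X : ℝ) ^ 2 ≤ p ^ 6 := by
    calc (X : ℝ) ^ 2 ≤ (p ^ 3) ^ 2 := by gcongr
      _ = p ^ 6 := by ring
  have hp2 : (2 : ℝ) ≤ p ^ 2 := by nlinarith only [hD0, hκR, hpC, hC2, hb1, hp42]
  have hXN : 2 * X ^ 2 ≤ N := by
    have h1 : 2 * (X : ℝ) ^ 2 ≤ N := by
      rw [← hp8]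
      calc 2 * (X : ℝ) ^ 2 ≤ p ^ 2 * p ^ 6 := by gcongr
        _ = p ^ 8 := by ring
    exact_mod_cast h1
  obtain ⟨k, hk⟩ : ∃ k : ℕ, k = 16 * κ := ⟨_, rfl⟩
  obtain ⟨s, hs⟩ : ∃ s : ℕ, s = 8 * k ^ 2 := ⟨_, rfl⟩
  have hsκ : s = 2048 * κ ^ 2 := by rw [hs, hk]; ring
  have hs6 : 6 * κ ≤ s := by rw [hsκ]; nlinarith only [hκ]
  have hsft := sft k X N a b t β hX0 hXN hNa hb hβ0
  have ht1' : p ^ (32 * κ - 32) ≤ |t| := by
    refine le_trans (le_of_eq ?_) ht1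
    rw [← hp8, ← pow_mul]
    congr 1
    omega
  have ht2' : |t| ≤ p ^ (32 * κ) := by
    refine ht2.trans (le_of_eq ?_)
    rw [← hp8, ← pow_mul]
    congr 1
    ring
  have hNN : (N : ℝ) ≤ a := by exact_mod_cast hNa
  have hbb : (b : ℝ) ≤ 2 * N := by exact_mod_cast hb
  have hbil : ∀ n ∈ Ioc a b, ‖bil k X (tay k t β n)‖ ≤ D * (X : ℝ) ^ 2 *
      (p ^ 8) ^ (-((1 / 2 ^ 26) / (κ : ℝ) ^ 2)) := by
    intro n hn
    rw [mem_Ioc] at hn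
    have hn1 : (N : ℝ) ≤ n := hNN.trans (by exact_mod_cast hn.1.le)
    have hn2 : (n : ℝ) ≤ 2 * N := (show (n : ℝ) ≤ b by exact_mod_cast hn.2).trans hbb
    have hz1 : p ^ 8 ≤ (n : ℝ) + β := by rw [hp8]; linarith only [hβ0, hn1]
    have hz0 : 0 < (n : ℝ) + β := by linarith only [hβ0, hN0, hn1]
    have hN1 : (1 : ℝ) ≤ N := by rw [← hp8]; exact one_le_pow₀ hp1
    have hz2 : (n : ℝ) + β ≤ 3 * p ^ 8 := by rw [hp8]; linarith only [hβ1, hn2, hN1]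
    refine vexp_bil hC1 hjv κ k s X p hκ hk hs hp1 hX0 hX2 _ ?_
    set G : ℕ → ℝ := fun j => if h : j < k then GG (tay k t β n ⟨j, h⟩) (s * X ^ (j + 1)) else 0
      with hG
    have hG1 : ∀ j : Fin k, GG (tay k t β n j) (s * X ^ ((j : ℕ) + 1)) = G j := by
      intro j
      rw [hG]
      simp only [j.isLt, dif_pos, Fin.eta]
    rw [prod_congr rfl (fun j _ => hG1 j), Fin.prod_univ_eq_prod_range G k]
    refine vexp_prod k κ s X p hp1 hk G ?_ ?_ ?_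
    · intro j
      simp only [hG]
      split_ifs
      · exact gg_nonneg _ _
      · exact le_rfl
    · intro j hj
      simp only [hG, hj, dif_pos]
      refine (gg_triv _ _).trans ?_
      push_cast
      have h1 : (1 : ℝ) ≤ (s : ℝ) * (X : ℝ) ^ (j + 1) := by
        have h2 : (1 : ℝ) ≤ s := by
          have : 1 ≤ s := by omega
          exact_mod_cast this
        have h3 : (1 : ℝ) ≤ (X : ℝ) ^ (j + 1) := one_le_pow₀ hXR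
        nlinarith only [h2, h3]
      nlinarith only [h1]
    · intro j hj1 hj2
      have hj : j < k := by omega
      simp only [hG, hj, dif_pos]
      exact vexp_good hC2 hgg κ X (j + 1) s p ((n : ℝ) + β) t _ hκ hp42 hX1 hX2 hs6 hsκ.le
        (by omega) (by omega) hz1 hz2 ht1' ht2' (vexp_abs_tay k t β n hz0 ⟨j, hj⟩) hbig
  set q : ℝ := (p ^ 8) ^ (-((1 / 2 ^ 26) / (κ : ℝ) ^ 2)) with hq
  have hq0 : 0 < q := Real.rpow_pos_of_pos (by positivity) _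
  have hcard : ((Ioc a b).card : ℝ) ≤ N := by
    have h1 : (Ioc a b).card ≤ N := by
      rw [Nat.card_Ioc]
      omega
    exact_mod_cast h1
  have hterm1 : (1 / (X : ℝ) ^ 2) * ∑ n ∈ Ioc a b, ‖bil k X (tay k t β n)‖ ≤ D * (N * q) := by
    have h1 : ∑ n ∈ Ioc a b, ‖bil k X (tay k t β n)‖ ≤ N * (D * (X : ℝ) ^ 2 * q) := by
      calc ∑ n ∈ Ioc a b, ‖bil k X (tay k t β n)‖ ≤ ∑ _n ∈ Ioc a b, D * (X : ℝ) ^ 2 * q :=
            sum_le_sum hbil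
        _ = (Ioc a b).card * (D * (X : ℝ) ^ 2 * q) := by rw [sum_const, nsmul_eq_mul]
        _ ≤ N * (D * (X : ℝ) ^ 2 * q) := by gcongr
    have h2 : (0 : ℝ) < (X : ℝ) ^ 2 := by positivity
    calc (1 / (X : ℝ) ^ 2) * ∑ n ∈ Ioc a b, ‖bil k X (tay k t β n)‖
        ≤ (1 / (X : ℝ) ^ 2) * (N * (D * (X : ℝ) ^ 2 * q)) := by gcongr
      _ = D * (N * q) := by
          field_simp
  have hNq : (N : ℝ) * q = (N : ℝ) ^ (1 - 1 / 2 ^ 26 / (κ : ℝ) ^ 2) := by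
    rw [hq, hp8, sub_eq_add_neg, Real.rpow_add hN0, Real.rpow_one]
  have hp6 : p ^ 6 ≤ N * q := by
    rw [hNq, ← hp8, ← Real.rpow_natCast p 8, ← Real.rpow_mul hp0.le, ← Real.rpow_natCast p 6]
    refine Real.rpow_le_rpow_of_exponent_le hp1 ?_
    push_cast
    have h1 : 1 / 2 ^ 26 / (κ : ℝ) ^ 2 ≤ 1 / 4 := by
      rw [div_le_iff₀ (by positivity)]
      nlinarith only [hκR]
    linarith only [h1]
  have hterm3 : 4 * Real.pi * |t| * N * ((X : ℝ) ^ 2 / N) ^ (k + 1) ≤ 13 * p ^ 6 := by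
    have h1 : (X : ℝ) ^ 2 / N ≤ 1 / p ^ 2 := by
      rw [← hp8, div_le_div_iff₀ (by positivity) (by positivity), one_mul]
      calc (X : ℝ) ^ 2 * p ^ 2 ≤ p ^ 6 * p ^ 2 := by gcongr
        _ = p ^ 8 := by ring
    have hpi : 4 * Real.pi ≤ 13 := by
      have := Real.pi_lt_d2
      linarith only [this]
    calc 4 * Real.pi * |t| * N * ((X : ℝ) ^ 2 / N) ^ (k + 1)
        ≤ 13 * p ^ (32 * κ) * p ^ 8 * (1 / p ^ 2) ^ (k + 1) := by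
          rw [hp8]
          gcongr
      _ = 13 * p ^ 6 := by
          have e1 : p ^ (32 * κ) * p ^ 8 = p ^ 6 * (p ^ 2) ^ (k + 1) := by
            rw [hk, ← pow_mul, ← pow_add, ← pow_add]
            congr 1
            ring
          have e2 : (p ^ 2) ^ (k + 1) ≠ 0 := by positivity
          rw [mul_assoc 13, e1, one_div, inv_pow]
          field_simp
  rw [← hNq]
  have hNq0 : 0 < (N : ℝ) * q := by positivity
  calc ‖∑ n ∈ Ioc a b, ee (t * Real.log (n + β))‖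
      ≤ (1 / (X : ℝ) ^ 2) * ∑ n ∈ Ioc a b, ‖bil k X (tay k t β n)‖ + 2 * (X : ℝ) ^ 2 +
        4 * Real.pi * |t| * N * ((X : ℝ) ^ 2 / N) ^ (k + 1) := hsft
    _ ≤ D * (N * q) + 2 * (N * q) + 13 * (N * q) := by
        have h1 : 2 * (X : ℝ) ^ 2 ≤ 2 * (N * q) := by linarith only [hX26, hp6]
        have h2 : 13 * p ^ 6 ≤ 13 * (N * q) := by linarith only [hp6]
        linarith only [hX26, hterm1, hp6, hterm3]
    _ ≤ C * (N * q) := by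
        rw [hC]
        nlinarith only [hX26, hp6, hC2]

end Pool.Agent.H97.VK
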